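import Mathlib
import Pool.Agent.Helper12_UBI.Final

/-!
# Uniform boundedness for the difference of the two points at infinity of a hyperelliptic curve

`C : y² + h(x) y = r(x)` with `h` monic of degree `g + 1`, `deg r ≤ g` and `h² + 4 r` squarefree,
over a number field `K` of degree at most `d`. If at some finite place `v` above `p` one
coefficient `r_i` of `r` dominates `h` (with weights), then the class of `∞₀ - ∞₁`, a rational
point of the Jacobian of `C`, has infinite order or order at most an explicit number depending
only on `g`, `d` and `p`. For `h = x^(g+1)` there is no condition.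
-/

open Polynomial NumberField IsDedekindDomain

namespace Pool.Agent.Helper39TS.Old.InfinityTorsion

theorem result (g d p : ℕ) (hp : p.Prime) (K : Type) [Field K] [NumberField K]
    (hd : Module.finrank ℚ K ≤ d) (C : H12UBI.Curve g K) (v : HeightOneSpectrum (𝓞 K))
    (hv : ((p : ℕ) : 𝓞 K) ∈ v.asIdeal) (i : ℕ) (hdom : C.DomAt v i) :
    orderOf C.infty ≤ 2 * (d * (2 * g + 2)) *
      ((g + 1) * p ^ (d * (2 * g + 2) * (3 * g + 1)) + g) :=
  H12UBI.final hp hd C hv i hdom

end Pool.Agent.Helper39TS.Old.InfinityTorsion
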