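import Mathlib
import Pool.Agent.Helper27_UBT.Asm
import Pool.Agent.Helper58_UB.Loc

/-!
# Uniform boundedness of torsion for hyperelliptic Jacobians with bounded root field

Let `n = 2g + 1` be an odd prime. For a number field `K` and bounds `D`, `Δ` there is `B` such that
for every extension `L/K` of degree `n` with `|disc L| ≤ Δ`, every generator `θ` of `L/K`
(`f` the minimal polynomial of `θ` over `K`), every extension `K₁/K` of degree at most `D` and
every `e ≠ 0` in `K₁`, all torsion points over `K₁` of the Jacobian (of dimension `g`) of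
`y² = e f(x)` have order at most `B`.
-/

open Polynomial NumberField

namespace Pool.Agent.Helper39TS.Old.RootFieldTorsion

theorem result (K : Type) [Field K] [NumberField K] (n D Δ : ℕ) (hn : n.Prime) (hn2 : n ≠ 2) :
    ∃ B : ℕ, ∀ (L : Type) [Field L] [NumberField L] [Algebra K L],
      Module.finrank K L = n → |NumberField.discr L| ≤ Δ →
      ∀ θ : L, θ ∉ (algebraMap K L).range →
      ∀ (K₁ : Type) [Field K₁] [NumberField K₁] [Algebra K K₁], Module.finrank K K₁ ≤ D →
      ∀ e : K₁, e ≠ 0 → ∀ X : UBT.OddCurve K₁,
        X.f = C e * (minpoly K θ).map (algebraMap K K₁) →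
        ∀ P : X.Jac, IsOfFinOrder P → orderOf P ≤ B :=
  UBT.final H58Q.ded H58Q.loc K n D Δ hn hn2

end Pool.Agent.Helper39TS.Old.RootFieldTorsion
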